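import Mathlib

/-!
# Braid groups on linearly (circularly) ordered sets

Band generators of Birman, Ko and Lee.
-/

set_option autoImplicit false

namespace Q181.FJB

/-- the circular order of a linearly ordered set -/
def Cyc {L : Type} [LinearOrder L] (x y z : L) : Prop :=
  (x < y ∧ y < z) ∨ (y < z ∧ z < x) ∨ (z < x ∧ x < y)

/-- the relations between the band generators -/
inductive BRel (L : Type) [LinearOrder L] : FreeGroup (L × L) → Prop
  /-- `a x y = a y x` -/
  | symm (x y : L) : BRel L (FreeGroup.of (x, y) * (FreeGroup.of (y, x))⁻¹)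
  /-- `a x x = 1` -/
  | diag (x : L) : BRel L (FreeGroup.of (x, x))
  /-- disjoint chords which do not cross commute -/
  | comm (x y z w : L) (h : Cyc x y z) (h' : Cyc z w x) : BRel L
      (FreeGroup.of (x, y) * FreeGroup.of (z, w) * (FreeGroup.of (x, y))⁻¹ *
        (FreeGroup.of (z, w))⁻¹)
  /-- the relations of a triangle -/
  | tri (x y z : L) (h : Cyc x y z) : BRel L
      (FreeGroup.of (z, y) * FreeGroup.of (y, x) *
        (FreeGroup.of (y, x) * FreeGroup.of (x, z))⁻¹)

/-- the braid group on the set `L` -/
abbrev Br (L : Type) [LinearOrder L] : Type := PresentedGroup {r | BRel L r}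

section

variable {L : Type} [LinearOrder L]

/-- the band generators: the half twist which exchanges the points `x` and `y` -/
def a (x y : L) : Br L := PresentedGroup.of (x, y)

theorem a_symm (x y : L) : a x y = a y x := by
  have h := PresentedGroup.one_of_mem (rels := {r | BRel L r}) (BRel.symm x y)
  rw [map_mul, map_inv, mul_inv_eq_one] at h
  exact h

theorem a_diag (x : L) : a x x = 1 :=
  PresentedGroup.one_of_mem (rels := {r | BRel L r}) (BRel.diag x)

theorem a_comm {x y z w : L} (h : Cyc x y z) (h' : Cyc z w x) : a x y * a z w = a z w * a x y := by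
  have h1 := PresentedGroup.one_of_mem (rels := {r | BRel L r}) (BRel.comm x y z w h h')
  rw [map_mul, map_mul, map_mul, map_inv, map_inv, mul_inv_eq_one, mul_inv_eq_iff_eq_mul] at h1
  exact h1

theorem a_tri {x y z : L} (h : Cyc x y z) : a z y * a y x = a y x * a x z := by
  have h1 := PresentedGroup.one_of_mem (rels := {r | BRel L r}) (BRel.tri x y z h)
  rw [map_mul, map_inv, map_mul, map_mul, mul_inv_eq_one] at h1
  exact h1

theorem closure_a : Subgroup.closure (Set.range (fun q : L × L => a q.1 q.2)) = ⊤ :=
  PresentedGroup.closure_range_of _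

/-- homomorphisms given by their values on the generators -/
def lift {H : Type} [Group H] (f : L → L → H) (h1 : ∀ x y, f x y = f y x) (h2 : ∀ x, f x x = 1)
    (h3 : ∀ x y z w, Cyc x y z → Cyc z w x → f x y * f z w = f z w * f x y)
    (h4 : ∀ x y z, Cyc x y z → f z y * f y x = f y x * f x z) : Br L →* H :=
  PresentedGroup.toGroup (f := fun q : L × L => f q.1 q.2) (by
    rintro r (hr : BRel L r)
    cases hr with
    | symm x y =>
      rw [map_mul, map_inv, FreeGroup.lift_apply_of, FreeGroup.lift_apply_of, mul_inv_eq_one]
      exact h1 x y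
    | diag x =>
      rw [FreeGroup.lift_apply_of]
      exact h2 x
    | comm x y z w h h' =>
      rw [map_mul, map_mul, map_mul, map_inv, map_inv, FreeGroup.lift_apply_of,
        FreeGroup.lift_apply_of, mul_inv_eq_one, mul_inv_eq_iff_eq_mul]
      exact h3 x y z w h h'
    | tri x y z h =>
      rw [map_mul, map_inv, map_mul, map_mul, FreeGroup.lift_apply_of, FreeGroup.lift_apply_of,
        FreeGroup.lift_apply_of, mul_inv_eq_one]
      exact h4 x y z h)

theorem lift_a {H : Type} [Group H] (f : L → L → H) (h1 : ∀ x y, f x y = f y x)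
    (h2 : ∀ x, f x x = 1) (h3 : ∀ x y z w, Cyc x y z → Cyc z w x → f x y * f z w = f z w * f x y)
    (h4 : ∀ x y z, Cyc x y z → f z y * f y x = f y x * f x z) (x y : L) :
    lift f h1 h2 h3 h4 (a x y) = f x y :=
  PresentedGroup.toGroup.of _

theorem hom_ext {H : Type} [Group H] {f g : Br L →* H} (h : ∀ x y, f (a x y) = g (a x y)) :
    f = g :=
  PresentedGroup.ext (fun q => h q.1 q.2)

/-- functoriality for maps which preserve the circular order -/
def map {L' : Type} [LinearOrder L'] (f : L → L') (hf : ∀ x y z, Cyc x y z → Cyc (f x) (f y) (f z)) :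
    Br L →* Br L' :=
  lift (fun x y => a (f x) (f y)) (fun x y => a_symm _ _) (fun x => a_diag _)
    (fun x y z w h h' => a_comm (hf _ _ _ h) (hf _ _ _ h')) (fun x y z h => a_tri (hf _ _ _ h))

@[simp] theorem map_a {L' : Type} [LinearOrder L'] (f : L → L')
    (hf : ∀ x y z, Cyc x y z → Cyc (f x) (f y) (f z)) (x y : L) :
    map f hf (a x y) = a (f x) (f y) :=
  lift_a _ _ _ _ _ _ _

/-! ### conjugacy of tuples -/

/-- the tuples `u` and `v` of points are conjugate in the braid group -/
def E {ι : Type} (u v : ι → L) : Prop :=
  ∃ p : Br L, ∀ i j, p * a (u i) (u j) * p⁻¹ = a (v i) (v j)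

theorem E.rfl' {ι : Type} (u : ι → L) : E u u := ⟨1, fun i j => by simp⟩

theorem E.symm' {ι : Type} {u v : ι → L} (h : E u v) : E v u := by
  obtain ⟨p, hp⟩ := h
  exact ⟨p⁻¹, fun i j => by rw [← hp i j]; group⟩

theorem E.trans' {ι : Type} {u v w : ι → L} (h : E u v) (h' : E v w) : E u w := by
  obtain ⟨p, hp⟩ := h
  obtain ⟨q, hq⟩ := h'
  exact ⟨q * p, fun i j => by rw [← hq i j, ← hp i j]; group⟩

/-- moving the point `x` to `y` through a free arc -/
theorem conj_move {x y s : L} (h : Cyc x y s) : a y x * a x s * (a y x)⁻¹ = a y s := by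
  rw [← a_tri h, mul_inv_cancel_right, a_symm]

theorem cyc_total {x y z : L} (h1 : x ≠ y) (h2 : y ≠ z) (h3 : x ≠ z) : Cyc x y z ∨ Cyc z y x := by
  unfold Cyc
  rcases lt_or_gt_of_ne h1 with h1 | h1 <;> rcases lt_or_gt_of_ne h2 with h2 | h2 <;>
    rcases lt_or_gt_of_ne h3 with h3 | h3 <;> simp_all <;> order

theorem Cyc.rot {x y z : L} (h : Cyc x y z) : Cyc y z x := by
  rcases h with h | h | h
  · exact Or.inr (Or.inr h)
  · exact Or.inl h
  · exact Or.inr (Or.inl h)

theorem Cyc.ne {x y z : L} (h : Cyc x y z) : x ≠ y ∧ y ≠ z ∧ x ≠ z := by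
  rcases h with ⟨h, h'⟩ | ⟨h, h'⟩ | ⟨h, h'⟩ <;> refine ⟨?_, ?_, ?_⟩ <;> order

theorem Cyc.asymm {x y z : L} (h : Cyc x y z) : ¬ Cyc z y x := by
  rintro (⟨h1, h1'⟩ | ⟨h1, h1'⟩ | ⟨h1, h1'⟩) <;>
    rcases h with ⟨h, h'⟩ | ⟨h, h'⟩ | ⟨h, h'⟩ <;> order

/-- two points in the free arc: the chord commutes with the moving one -/
theorem conj_far {x y s t : L} (h : Cyc x y s) (h' : Cyc x y t) :
    a y x * a s t * (a y x)⁻¹ = a s t := by
  by_cases hst : s = t
  · subst hst
    rw [a_diag]
    group
  have h0 := h.ne
  have h0' := h'.ne
  rw [mul_inv_eq_iff_eq_mul]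
  rcases cyc_total (x := s) (y := t) (z := x) hst h0'.2.2.symm h0.2.2.symm with h1 | h1
  · rw [a_symm y x]
    exact a_comm h h1
  · rw [a_symm y x, a_symm s t]
    exact a_comm h' h1.rot

/-- moving one point of a tuple -/
theorem E_move {ι : Type} [DecidableEq ι] (u : ι → L) (i : ι) (y : L)
    (h : ∀ j, j ≠ i → Cyc (u i) y (u j)) : E u (Function.update u i y) := by
  refine ⟨a y (u i), fun j k => ?_⟩
  by_cases hj : j = i
  · by_cases hk : k = i
    · subst hj
      subst hk
      rw [a_diag, a_diag]
      group
    · subst hj
      rw [Function.update_self, Function.update_of_ne hk]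
      exact conj_move (h k hk)
  · by_cases hk : k = i
    · subst hk
      rw [Function.update_self, Function.update_of_ne hj, a_symm (u j), a_symm (u j)]
      exact conj_move (h j hj)
    · rw [Function.update_of_ne hj, Function.update_of_ne hk]
      exact conj_far (h j hj) (h k hk)

/-- moving one point of a tuple backwards -/
theorem E_move' {ι : Type} [DecidableEq ι] (u : ι → L) (i : ι) (y : L)
    (h : ∀ j, j ≠ i → Cyc y (u i) (u j)) : E u (Function.update u i y) := by
  have h1 := E_move (Function.update u i y) i (u i) (fun j hj => by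
    rw [Function.update_self, Function.update_of_ne hj]
    exact h j hj)
  rw [Function.update_idem, Function.update_eq_self] at h1
  exact h1.symm'

/-- tuples of the same order type are conjugate -/
theorem E_mono {ι : Type} [Finite ι] : ∀ (n : ℕ) (u v : ι → L), Nat.card {i // u i ≠ v i} ≤ n →
    (∀ i j, u i < u j ↔ v i < v j) → Function.Injective u → E u v := by
  classical
  have := Fintype.ofFinite ι
  intro n
  induction n with
  | zero =>
    intro u v hn _ _
    have h0 : Nat.card {i // u i ≠ v i} = 0 := by omega
    rw [Finite.card_eq_zero_iff] at h0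
    have : u = v := by
      funext i
      by_contra hi
      exact h0.false ⟨i, hi⟩
    rw [this]
    exact E.rfl' v
  | succ n ih =>
    intro u v hn hord hinj
    have hvinj : Function.Injective v := by
      intro i j hij
      by_contra hne
      have h1 : u i ≠ u j := fun h => hne (hinj h)
      rcases lt_or_gt_of_ne h1 with h1 | h1
      · have := (hord i j).1 h1
        rw [hij] at this
        exact lt_irrefl _ this
      · have := (hord j i).1 h1
        rw [hij] at this
        exact lt_irrefl _ this
    have key : ∀ i : ι, u i ≠ v i → (∀ j, j ≠ i → (u j < u i ∧ u j < v i) ∨ (u i < u j ∧ v i < u j)) →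
        E u (Function.update u i (v i)) → E u v := by
      intro i hi hj hE
      refine hE.trans' (ih _ _ ?_ ?_ ?_)
      · have hlt : Nat.card {j // Function.update u i (v i) j ≠ v j} < Nat.card {j // u j ≠ v j} := by
          rw [Nat.card_eq_fintype_card, Nat.card_eq_fintype_card]
          refine Fintype.card_lt_of_injective_of_notMem
            (fun j => ⟨j.1, ?_⟩) ?_ (b := ⟨i, hi⟩) ?_
          · have hji : j.1 ≠ i := by
              intro h
              have := j.2
              rw [h, Function.update_self] at this
              exact this rfl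
            have := j.2
            rwa [Function.update_of_ne hji] at this
          · intro j k hjk
            exact Subtype.ext (congrArg (fun z : {j // u j ≠ v j} => z.1) hjk)
          · rintro ⟨j, hj'⟩
            have hji : j.1 = i := congrArg (fun z : {j // u j ≠ v j} => z.1) hj'
            have := j.2
            rw [hji, Function.update_self] at this
            exact this rfl
        omega
      · intro j k
        by_cases h1 : j = i
        · by_cases h2 : k = i
          · subst h1
            subst h2
            simp
          · subst h1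
            rw [Function.update_self, Function.update_of_ne h2]
            rw [← hord j k]
            rcases hj k h2 with ⟨h3, h4⟩ | ⟨h3, h4⟩ <;> constructor <;> intro h5 <;> order
        · by_cases h2 : k = i
          · subst h2
            rw [Function.update_self, Function.update_of_ne h1]
            rw [← hord j k]
            rcases hj j h1 with ⟨h3, h4⟩ | ⟨h3, h4⟩ <;> constructor <;> intro h5 <;> order
          · rw [Function.update_of_ne h1, Function.update_of_ne h2]
            exact hord j k
      · intro j k hjk
        by_cases h1 : j = i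
        · by_cases h2 : k = i
          · rw [h1, h2]
          · exfalso
            subst h1
            rw [Function.update_self, Function.update_of_ne h2] at hjk
            rcases hj k h2 with ⟨h3, h4⟩ | ⟨h3, h4⟩ <;> order
        · by_cases h2 : k = i
          · exfalso
            subst h2
            rw [Function.update_self, Function.update_of_ne h1] at hjk
            rcases hj j h1 with ⟨h3, h4⟩ | ⟨h3, h4⟩ <;> order
          · rw [Function.update_of_ne h1, Function.update_of_ne h2] at hjk
            exact hinj hjk
    by_cases hup : ∃ i, u i < v i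
    · obtain ⟨i, hi, hmax⟩ : ∃ i, u i < v i ∧ ∀ j, u j < v j → u j ≤ u i := by
        obtain ⟨i, hi, hm⟩ := Finset.exists_max_image (Finset.univ.filter (fun i => u i < v i)) u
          (by obtain ⟨i, hi⟩ := hup; exact ⟨i, by simp [hi]⟩)
        refine ⟨i, by simpa using hi, fun j hj => hm j (by simp [hj])⟩
      have hpos : ∀ j, j ≠ i → (u j < u i ∧ u j < v i) ∨ (u i < u j ∧ v i < u j) := by
        intro j hj
        rcases lt_or_gt_of_ne (fun h => hj (hinj h) : u j ≠ u i) with h | h
        · exact Or.inl ⟨h, h.trans hi⟩
        · right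
          refine ⟨h, ?_⟩
          have h1 : v i < v j := (hord i j).1 h
          by_contra h2
          push Not at h2
          have h3 : u j < v j := h2.trans_lt h1
          exact absurd (hmax j h3) (not_le.2 h)
      refine key i hi.ne hpos (E_move u i (v i) ?_)
      intro j hj
      rcases hpos j hj with ⟨h1, h2⟩ | ⟨h1, h2⟩
      · exact Or.inr (Or.inr ⟨h1, hi⟩)
      · exact Or.inl ⟨hi, h2⟩
    · push Not at hup
      by_cases hdn : ∃ i, v i < u i
      · obtain ⟨i, hi, hmin⟩ : ∃ i, v i < u i ∧ ∀ j, v j < u j → u i ≤ u j := by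
          obtain ⟨i, hi, hm⟩ := Finset.exists_min_image (Finset.univ.filter (fun i => v i < u i)) u
            (by obtain ⟨i, hi⟩ := hdn; exact ⟨i, by simp [hi]⟩)
          refine ⟨i, by simpa using hi, fun j hj => hm j (by simp [hj])⟩
        have hpos : ∀ j, j ≠ i → (u j < u i ∧ u j < v i) ∨ (u i < u j ∧ v i < u j) := by
          intro j hj
          rcases lt_or_gt_of_ne (fun h => hj (hinj h) : u j ≠ u i) with h | h
          · left
            refine ⟨h, ?_⟩
            have h1 : v j < v i := (hord j i).1 h
            have h2 : ¬ v j < u j := fun h3 => absurd (hmin j h3) (not_le.2 h)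
            push Not at h2
            exact h2.trans_lt h1
          · exact Or.inr ⟨h, hi.trans h⟩
        refine key i hi.ne' hpos (E_move' u i (v i) ?_)
        intro j hj
        rcases hpos j hj with ⟨h1, h2⟩ | ⟨h1, h2⟩
        · exact Or.inr (Or.inr ⟨h2, hi⟩)
        · exact Or.inl ⟨hi, h1⟩
      · push Not at hdn
        have : u = v := funext fun i => le_antisymm (hdn i) (hup i)
        rw [this]
        exact E.rfl' v

end

end Q181.FJB
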