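import Pool.Agent.Q181.FJB.Cy
import Pool.Agent.Y462.SS.Base

/-!
# The braid group on a set is the directed union of the finite ones
-/

set_option autoImplicit false

namespace Q181.FJB

open Pool.Agent.Y462.SS (Closed)

variable {L : Type} [LinearOrder L]

theorem cyc_val {F : Finset L} {x y z : F} : Cyc x y z ↔ Cyc (x : L) (y : L) (z : L) := Iff.rfl

/-- the inclusion of finite sets -/
def inc {F F' : Finset L} (h : F ≤ F') : F → F' := fun x => ⟨x.1, h x.2⟩

/-- the free group on the generators of a finite subset -/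
def jF (F : Finset L) : FreeGroup (F × F) →* FreeGroup (L × L) :=
  FreeGroup.map (fun q => ((q.1 : L), (q.2 : L)))

theorem inc_cyc {F F' : Finset L} (h : F ≤ F') (x y z : F) (hc : Cyc x y z) :
    Cyc (inc h x) (inc h y) (inc h z) := hc

theorem val_cyc (F : Finset L) (x y z : F) (hc : Cyc x y z) :
    Cyc (x : L) (y : L) (z : L) := hc

def mI {F F' : Finset L} (h : F ≤ F') : Br F →* Br F' := map (inc h) (inc_cyc h)

def mJ (F : Finset L) : Br F →* Br L := map (fun x : F => (x : L)) (val_cyc F)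

theorem mI_a {F F' : Finset L} (h : F ≤ F') (x y : F) : mI h (a x y) = a (inc h x) (inc h y) :=
  map_a _ _ _ _

theorem mJ_a (F : Finset L) (x y : F) : mJ F (a x y) = a (x : L) (y : L) :=
  map_a _ _ _ _

def iF {F F' : Finset L} (h : F ≤ F') : FreeGroup (F × F) →* FreeGroup (F' × F') :=
  FreeGroup.map (fun q => (inc h q.1, inc h q.2))

omit [LinearOrder L] in
theorem jF_iF {F F' : Finset L} (h : F ≤ F') (w : FreeGroup (F × F)) : jF F' (iF h w) = jF F w := by
  have : (jF F').comp (iF h) = jF F := by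
    apply FreeGroup.ext_hom
    rintro ⟨x, y⟩
    rfl
  exact DFunLike.congr_fun this w

omit [LinearOrder L] in
theorem jF_inj (F : Finset L) : Function.Injective (jF F) := by
  apply FreeGroup.map_injective
  rintro ⟨x, y⟩ ⟨z, w⟩ h
  rw [Prod.mk.injEq] at h
  exact Prod.ext (Subtype.ext h.1) (Subtype.ext h.2)

def mkF (L : Type) [LinearOrder L] : FreeGroup (L × L) →* Br L := PresentedGroup.mk _

theorem mkF_iF {F F' : Finset L} (h : F ≤ F') (w : FreeGroup (F × F)) :
    mkF F' (iF h w) = mI h (mkF F w) := by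
  have : (mkF F').comp (iF h) = (mI h).comp (mkF F) := by
    apply FreeGroup.ext_hom
    rintro ⟨x, y⟩
    exact (mI_a h x y).symm
  exact DFunLike.congr_fun this w

theorem mkF_jF (F : Finset L) (w : FreeGroup (F × F)) :
    mkF L (jF F w) = mJ F (mkF F w) := by
  have : (mkF L).comp (jF F) = (mJ F).comp (mkF F) := by
    apply FreeGroup.ext_hom
    rintro ⟨x, y⟩
    exact (mJ_a F x y).symm
  exact DFunLike.congr_fun this w

/-- the relations which already hold in a finite subset -/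
def KF (L : Type) [LinearOrder L] : Subgroup (FreeGroup (L × L)) where
  carrier := {w | ∃ (F : Finset L) (v : FreeGroup (F × F)), jF F v = w ∧ mkF F v = 1}
  one_mem' := ⟨∅, 1, map_one _, map_one _⟩
  mul_mem' := by
    classical
    rintro w₁ w₂ ⟨F₁, v₁, rfl, h₁⟩ ⟨F₂, v₂, rfl, h₂⟩
    refine ⟨F₁ ⊔ F₂, iF le_sup_left v₁ * iF le_sup_right v₂, ?_, ?_⟩
    · rw [map_mul, jF_iF, jF_iF]
    · rw [map_mul, mkF_iF, mkF_iF, h₁, h₂, map_one, map_one, mul_one]
  inv_mem' := by
    rintro w ⟨F, v, rfl, h⟩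
    exact ⟨F, v⁻¹, map_inv _ _, by rw [map_inv, h, inv_one]⟩

theorem exists_jF (w : FreeGroup (L × L)) : ∃ (F : Finset L) (v : FreeGroup (F × F)), jF F v = w := by
  classical
  induction w using FreeGroup.induction_on with
  | C1 => exact ⟨∅, 1, map_one _⟩
  | of q =>
    obtain ⟨x, y⟩ := q
    exact ⟨{x, y}, FreeGroup.of (⟨x, by simp⟩, ⟨y, by simp⟩), rfl⟩
  | inv_of q h =>
    obtain ⟨F, v, hv⟩ := h
    exact ⟨F, v⁻¹, by rw [map_inv, hv]⟩
  | mul w₁ w₂ h₁ h₂ =>
    obtain ⟨F₁, v₁, rfl⟩ := h₁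
    obtain ⟨F₂, v₂, rfl⟩ := h₂
    refine ⟨F₁ ⊔ F₂, iF le_sup_left v₁ * iF le_sup_right v₂, ?_⟩
    rw [map_mul, jF_iF, jF_iF]

theorem KF_normal : (KF L).Normal := by
  classical
  constructor
  rintro _ ⟨F₁, v₁, rfl, h₁⟩ g
  obtain ⟨F₂, v₂, rfl⟩ := exists_jF g
  refine ⟨F₁ ⊔ F₂, iF le_sup_right v₂ * iF le_sup_left v₁ * (iF le_sup_right v₂)⁻¹, ?_, ?_⟩
  · rw [map_mul, map_mul, map_inv, jF_iF, jF_iF]
  · rw [map_mul, map_mul, mkF_iF _ v₁, h₁, map_one, mul_one, ← map_mul, mul_inv_cancel, map_one]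

theorem rel_KF {r : FreeGroup (L × L)} (hr : BRel L r) : r ∈ KF L := by
  classical
  cases hr with
  | symm x y =>
    let x' : ({x, y} : Finset L) := ⟨x, by simp⟩
    let y' : ({x, y} : Finset L) := ⟨y, by simp⟩
    exact ⟨_, _, rfl, PresentedGroup.one_of_mem (BRel.symm x' y')⟩
  | diag x =>
    let x' : ({x} : Finset L) := ⟨x, by simp⟩
    exact ⟨_, _, rfl, PresentedGroup.one_of_mem (BRel.diag x')⟩
  | comm x y z w h h' =>
    let x' : ({x, y, z, w} : Finset L) := ⟨x, by simp⟩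
    let y' : ({x, y, z, w} : Finset L) := ⟨y, by simp⟩
    let z' : ({x, y, z, w} : Finset L) := ⟨z, by simp⟩
    let w' : ({x, y, z, w} : Finset L) := ⟨w, by simp⟩
    exact ⟨_, _, rfl, PresentedGroup.one_of_mem (BRel.comm x' y' z' w' h h')⟩
  | tri x y z h =>
    let x' : ({x, y, z} : Finset L) := ⟨x, by simp⟩
    let y' : ({x, y, z} : Finset L) := ⟨y, by simp⟩
    let z' : ({x, y, z} : Finset L) := ⟨z, by simp⟩
    exact ⟨_, _, rfl, PresentedGroup.one_of_mem (BRel.tri x' y' z' h)⟩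

theorem mkF_surj (L : Type) [LinearOrder L] : Function.Surjective (mkF L) :=
  PresentedGroup.mk_surjective _

theorem mem_KF {w : FreeGroup (L × L)} (h : mkF L w = 1) : w ∈ KF L := by
  have := KF_normal (L := L)
  have h1 : w ∈ Subgroup.normalClosure {r | BRel L r} := (QuotientGroup.eq_one_iff w).1 h
  exact Subgroup.normalClosure_le_normal (fun r hr => rel_KF hr) h1

/-- a relation between braids on a finite subset holds in a larger finite subset -/
theorem dies {F : Finset L} (x : Br F)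
    (h : mJ F x = 1) : ∃ (F' : Finset L) (hF : F ≤ F'), mI hF x = 1 := by
  classical
  obtain ⟨w, rfl⟩ := mkF_surj F x
  rw [← mkF_jF] at h
  obtain ⟨F₁, v, hv, h₁⟩ := mem_KF h
  refine ⟨F ⊔ F₁, le_sup_left, ?_⟩
  have h2 : iF (le_sup_left : F ≤ F ⊔ F₁) w = iF (le_sup_right : F₁ ≤ F ⊔ F₁) v := by
    apply jF_inj
    rw [jF_iF, jF_iF, hv]
  rw [← mkF_iF, h2, mkF_iF, h₁, map_one]

variable {C : ∀ (G : Type) [Group G], Prop}

theorem C_fin (hC : Closed C) (hB : ∀ n : ℕ, C (Br (Fin n))) (F : Finset L) : C (Br F) := by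
  let e := F.orderIsoOfFin (rfl : F.card = F.card)
  have h1 : ∀ x y z : F, Cyc x y z → Cyc (e.symm x) (e.symm y) (e.symm z) := by
    intro x y z h
    simpa only [Cyc, OrderIso.lt_iff_lt] using h
  have h2 : ∀ x y z : Fin F.card, Cyc x y z → Cyc (e x) (e y) (e z) := by
    intro x y z h
    simpa only [Cyc, OrderIso.lt_iff_lt] using h
  refine hC.of_injective _ _ (map e.symm h1) ?_ (hB F.card)
  have h3 : ∀ x, map e h2 (map e.symm h1 x) = x := by
    intro x
    have : (map e h2).comp (map e.symm h1) = MonoidHom.id _ := by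
      apply hom_ext
      intro x y
      rw [MonoidHom.comp_apply, map_a, map_a, OrderIso.apply_symm_apply, OrderIso.apply_symm_apply]
      rfl
    exact DFunLike.congr_fun this x
  intro x y hxy
  rw [← h3 x, ← h3 y, hxy]

theorem C_Br (hC : Closed C) (hB : ∀ n : ℕ, C (Br (Fin n))) (L : Type) [LinearOrder L] :
    C (Br L) := by
  classical
  refine hC.colim (Finset L) (fun i j => ⟨i ⊔ j, le_sup_left, le_sup_right⟩) (fun F => Br F)
    (fun F F' h => mI h) (Br L) (fun F => mJ F) ?_ ?_ ?_ ?_ ?_ (C_fin hC hB)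
  · intro F h x
    have : mI h = MonoidHom.id (Br F) := hom_ext (fun x y => mI_a h x y)
    exact DFunLike.congr_fun this x
  · intro F F' F'' h h' x
    have : (mI h').comp (mI h) = mI (h.trans h') := hom_ext (fun x y => by
      rw [MonoidHom.comp_apply, mI_a, mI_a, mI_a]; rfl)
    exact DFunLike.congr_fun this x
  · intro F F' h x
    have : (mJ F').comp (mI h) = mJ F := hom_ext (fun x y => by
      rw [MonoidHom.comp_apply, mI_a, mJ_a, mJ_a]; rfl)
    exact DFunLike.congr_fun this x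
  · intro y
    obtain ⟨w, rfl⟩ := mkF_surj L y
    obtain ⟨F, v, rfl⟩ := exists_jF w
    exact ⟨F, mkF F v, (mkF_jF F v).symm⟩
  · intro F x h
    exact dies x h

end Q181.FJB
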