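import Pool.Agent.Q181.FJB.Br

/-!
# Tuples with the same circular order are conjugate
-/

set_option autoImplicit false

namespace Q181.FJB

variable {L : Type} [LinearOrder L]

theorem cyc_of_order {ι : Type} {u v : ι → L} (h : ∀ i j, u i < u j ↔ v i < v j) (i j k : ι) :
    Cyc (u i) (u j) (u k) ↔ Cyc (v i) (v j) (v k) := by
  unfold Cyc
  rw [h i j, h j k, h k i]

/-- a tuple of the same order type with a free point above it -/
theorem exists_free [Infinite L] {ι : Type} [Finite ι] (v : ι → L) (hv : Function.Injective v) :
    ∃ (w : ι → L) (c : L), (∀ i j, v i < v j ↔ w i < w j) ∧ (∀ i, w i < c) := by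
  classical
  have := Fintype.ofFinite ι
  obtain ⟨T, hT⟩ := Infinite.exists_subset_card_eq L (Fintype.card ι + 1)
  let f : Fin (Fintype.card ι + 1) ↪o L := T.orderEmbOfFin hT
  let r : ι → Finset ι := fun i => Finset.univ.filter (fun j => v j < v i)
  have hr : ∀ i, (r i).card < Fintype.card ι := by
    intro i
    have h1 : r i ⊆ Finset.univ.erase i := by
      intro j hj
      rw [Finset.mem_filter] at hj
      rw [Finset.mem_erase]
      refine ⟨?_, Finset.mem_univ _⟩
      rintro rfl
      exact lt_irrefl _ hj.2
    have h2 := Finset.card_le_card h1
    rw [Finset.card_erase_of_mem (Finset.mem_univ _), Finset.card_univ] at h2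
    have h3 : 0 < Fintype.card ι := Fintype.card_pos_iff.2 ⟨i⟩
    omega
  have hmono : ∀ i j, v i < v j → (r i).card < (r j).card := by
    intro i j hij
    apply Finset.card_lt_card
    rw [Finset.ssubset_iff_of_subset]
    · refine ⟨i, ?_, ?_⟩
      · rw [Finset.mem_filter]
        exact ⟨Finset.mem_univ _, hij⟩
      · rw [Finset.mem_filter]
        rintro ⟨_, h⟩
        exact lt_irrefl _ h
    · intro k hk
      rw [Finset.mem_filter] at hk ⊢
      exact ⟨Finset.mem_univ _, hk.2.trans hij⟩
  refine ⟨fun i => f ⟨(r i).card, by have := hr i; omega⟩, f (Fin.last _), ?_, ?_⟩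
  · intro i j
    rw [OrderEmbedding.lt_iff_lt, Fin.mk_lt_mk]
    constructor
    · exact hmono i j
    · intro h
      by_contra hne
      push Not at hne
      rcases hne.lt_or_eq with h1 | h1
      · have := hmono j i h1
        omega
      · have := hv h1
        subst this
        exact lt_irrefl _ h
  · intro i
    rw [OrderEmbedding.lt_iff_lt, Fin.lt_def, Fin.val_last]
    exact hr i

/-- **injective tuples of the same circular order type are conjugate** -/
theorem E_cyc [Infinite L] {ι : Type} [Finite ι] (u : ι → L) (m : ι) (hm : ∀ i, u m ≤ u i)
    (hu : Function.Injective u) : ∀ (n : ℕ) (v : ι → L), Nat.card {i // v i < v m} ≤ n →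
    Function.Injective v → (∀ i j k, Cyc (u i) (u j) (u k) ↔ Cyc (v i) (v j) (v k)) → E u v := by
  classical
  have := Fintype.ofFinite ι
  have hm' : ∀ i, i ≠ m → u m < u i := fun i hi =>
    lt_of_le_of_ne (hm i) (fun h => hi (hu h).symm)
  intro n
  induction n with
  | zero =>
    intro v hn hv hc
    have h0 : Nat.card {i // v i < v m} = 0 := by omega
    rw [Finite.card_eq_zero_iff] at h0
    have hvm : ∀ i, i ≠ m → v m < v i := by
      intro i hi
      refine lt_of_le_of_ne ?_ (fun h => hi (hv h).symm)
      by_contra h
      push Not at h
      exact h0.false ⟨i, h⟩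
    refine E_mono _ u v le_rfl ?_ hu
    intro i j
    by_cases hi : i = m
    · subst hi
      by_cases hj : j = i
      · subst hj
        simp
      · exact ⟨fun _ => hvm j hj, fun _ => hm' j hj⟩
    · by_cases hj : j = m
      · subst hj
        exact ⟨fun h => absurd h (not_lt.2 (hm' i hi).le), fun h => absurd h (not_lt.2 (hvm i hi).le)⟩
      · have h1 := hc m i j
        have h2 := hm' i hi
        have h3 := hm' j hj
        have h4 := hvm i hi
        have h5 := hvm j hj
        unfold Cyc at h1
        constructor
        · intro h
          rcases h1.1 (Or.inl ⟨h2, h⟩) with h6 | h6 | h6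
          · exact h6.2
          · exact h6.1
          · exact absurd h6.1 (not_lt.2 h5.le)
        · intro h
          rcases h1.2 (Or.inl ⟨h4, h⟩) with h6 | h6 | h6
          · exact h6.2
          · exact h6.1
          · exact absurd h6.1 (not_lt.2 h3.le)
  | succ n ih =>
    intro v hn hv hc
    by_cases h0 : Nat.card {i // v i < v m} = 0
    · exact ih v (by omega) hv hc
    · obtain ⟨w, c, hw, hwc⟩ := exists_free v hv
      have hwinj : Function.Injective w := by
        intro i j hij
        by_contra hne
        have h1 : v i ≠ v j := fun h => hne (hv h)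
        rcases lt_or_gt_of_ne h1 with h1 | h1
        · have := (hw i j).1 h1
          rw [hij] at this
          exact lt_irrefl _ this
        · have := (hw j i).1 h1
          rw [hij] at this
          exact lt_irrefl _ this
      obtain ⟨i₀, hi₀⟩ : ∃ i₀, ∀ i, w i₀ ≤ w i := by
        obtain ⟨i, _, hi⟩ := Finset.exists_min_image (Finset.univ : Finset ι) w ⟨m, Finset.mem_univ _⟩
        exact ⟨i, fun j => hi j (Finset.mem_univ _)⟩
      have hi₀' : ∀ i, i ≠ i₀ → w i₀ < w i := fun i hi =>
        lt_of_le_of_ne (hi₀ i) (fun h => hi (hwinj h).symm)
      have hne : i₀ ≠ m := by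
        rintro rfl
        apply h0
        rw [Finite.card_eq_zero_iff]
        refine ⟨fun ⟨j, hj⟩ => ?_⟩
        have := (hw j i₀).1 hj
        exact absurd this (not_lt.2 (hi₀ j))
      have hE : E v (Function.update w i₀ c) := by
        refine (E_mono _ v w le_rfl hw hv).trans' (E_move' w i₀ c ?_)
        intro j hj
        exact Or.inr (Or.inl ⟨hi₀' j hj, hwc j⟩)
      have hself : Function.update w i₀ c i₀ = c := Function.update_self _ _ _
      have hof : ∀ j, j ≠ i₀ → Function.update w i₀ c j = w j := fun j hj =>
        Function.update_of_ne hj _ _
      refine (ih (Function.update w i₀ c) ?_ ?_ ?_).trans' hE.symm'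
      · have hlt : Nat.card {j // Function.update w i₀ c j < Function.update w i₀ c m} <
            Nat.card {j // v j < v m} := by
          rw [Nat.card_eq_fintype_card, Nat.card_eq_fintype_card]
          have hjne : ∀ j, Function.update w i₀ c j < Function.update w i₀ c m → j ≠ i₀ := by
            rintro j hj rfl
            rw [hself, hof m hne.symm] at hj
            exact absurd hj (not_lt.2 (hwc m).le)
          refine Fintype.card_lt_of_injective_of_notMem
            (fun j => ⟨j.1, ?_⟩) ?_ (b := ⟨i₀, (hw i₀ m).2 (hi₀' m hne.symm)⟩) ?_
          · obtain ⟨j, hj⟩ := j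
            have h1 := hj
            rw [hof _ (hjne _ hj), hof m hne.symm] at h1
            exact (hw _ _).2 h1
          · intro j k hjk
            exact Subtype.ext (congrArg (fun z : {j // v j < v m} => z.1) hjk)
          · rintro ⟨j, hj'⟩
            have hji : j.1 = i₀ := congrArg (fun z : {j // v j < v m} => z.1) hj'
            exact hjne _ j.2 hji
        omega
      · intro j k hjk
        by_cases h1 : j = i₀
        · by_cases h2 : k = i₀
          · rw [h1, h2]
          · exfalso
            subst h1
            rw [hself, hof k h2] at hjk
            exact (hwc k).ne hjk.symm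
        · by_cases h2 : k = i₀
          · exfalso
            subst h2
            rw [hself, hof j h1] at hjk
            exact (hwc j).ne hjk
          · rw [hof j h1, hof k h2] at hjk
            exact hwinj hjk
      · have hcw : ∀ i j k, Cyc (w i) (w j) (w k) ↔
            Cyc (Function.update w i₀ c i) (Function.update w i₀ c j) (Function.update w i₀ c k) := by
          intro i j k
          by_cases h1 : i = i₀ <;> by_cases h2 : j = i₀ <;> by_cases h3 : k = i₀ <;>
            simp only [h1, h2, h3, hself, hof, ne_eq, not_false_eq_true]
          · constructor <;> intro h <;> exact absurd rfl h.ne.1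
          · constructor <;> intro h <;> exact absurd rfl h.ne.1
          · constructor <;> intro h <;> exact absurd rfl h.ne.2.2
          · have e1 := hi₀' j h2
            have e2 := hi₀' k h3
            have e3 := hwc j
            have e4 := hwc k
            unfold Cyc
            constructor
            · rintro (h | h | h)
              · exact Or.inr (Or.inl ⟨h.2, e4⟩)
              · exact absurd h.2 (not_lt.2 e2.le)
              · exact absurd h.1 (not_lt.2 e2.le)
            · rintro (h | h | h)
              · exact absurd h.1 (not_lt.2 e3.le)
              · exact Or.inl ⟨e1, h.1⟩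
              · exact absurd h.2 (not_lt.2 e3.le)
          · constructor <;> intro h <;> exact absurd rfl h.ne.2.1
          · have e1 := hi₀' i h1
            have e2 := hi₀' k h3
            have e3 := hwc i
            have e4 := hwc k
            unfold Cyc
            constructor
            · rintro (h | h | h)
              · exact absurd h.1 (not_lt.2 e1.le)
              · exact Or.inr (Or.inr ⟨h.2, e3⟩)
              · exact absurd h.2 (not_lt.2 e1.le)
            · rintro (h | h | h)
              · exact absurd h.2 (not_lt.2 e4.le)
              · exact absurd h.1 (not_lt.2 e4.le)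
              · exact Or.inr (Or.inl ⟨e2, h.1⟩)
          · have e1 := hi₀' i h1
            have e2 := hi₀' j h2
            have e3 := hwc i
            have e4 := hwc j
            unfold Cyc
            constructor
            · rintro (h | h | h)
              · exact absurd h.2 (not_lt.2 e2.le)
              · exact absurd h.1 (not_lt.2 e2.le)
              · exact Or.inl ⟨h.2, e4⟩
            · rintro (h | h | h)
              · exact Or.inr (Or.inr ⟨e1, h.1⟩)
              · exact absurd h.2 (not_lt.2 e3.le)
              · exact absurd h.1 (not_lt.2 e3.le)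
        intro i j k
        rw [hc i j k, cyc_of_order hw i j k, hcw i j k]

/-- **injective tuples of the same circular order type are conjugate** -/
theorem E_of_cyc [Infinite L] {ι : Type} [Finite ι] (u v : ι → L) (hu : Function.Injective u)
    (hv : Function.Injective v) (hc : ∀ i j k, Cyc (u i) (u j) (u k) ↔ Cyc (v i) (v j) (v k)) :
    E u v := by
  classical
  have := Fintype.ofFinite ι
  by_cases hne : Nonempty ι
  · obtain ⟨m⟩ := hne
    obtain ⟨m, _, hm⟩ := Finset.exists_min_image (Finset.univ : Finset ι) u ⟨m, Finset.mem_univ _⟩
    exact E_cyc u m (fun i => hm i (Finset.mem_univ _)) hu _ v le_rfl hv hc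
  · exact ⟨1, fun i => absurd ⟨i⟩ hne⟩

end Q181.FJB
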