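import Pool.Agent.Q181.FJB.Co
import Pool.Agent.Q30.FJ.Crit

/-!
# Extensions of braid groups on infinite sets
-/

set_option autoImplicit false

namespace Q181.FJB

open Pool.Agent.Y462.SS (Closed)
open Pool.Agent.Y110.FJ (ClosedE)

variable {L : Type} [LinearOrder L]

theorem mJ_mI {F F' : Finset L} (h : F ≤ F') (x : Br F) : mJ F' (mI h x) = mJ F x := by
  have : (mJ F').comp (mI h) = mJ F := hom_ext (fun x y => by
    rw [MonoidHom.comp_apply, mI_a, mJ_a, mJ_a]; rfl)
  exact DFunLike.congr_fun this x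

theorem exists_mJ (y : Br L) : ∃ (F : Finset L) (x : Br F), mJ F x = y := by
  obtain ⟨w, rfl⟩ := mkF_surj L y
  obtain ⟨F, v, rfl⟩ := exists_jF w
  exact ⟨F, mkF F v, (mkF_jF F v).symm⟩

/-- finitely many braids live on a finite set with at least three points -/
theorem exists_F [Infinite L] (E : Set (Br L)) (hE : E.Finite) :
    ∃ F : Finset L, 3 ≤ F.card ∧ ∀ y ∈ E, ∃ x : Br F, mJ F x = y := by
  classical
  choose Fx x hx using exists_mJ (L := L)
  obtain ⟨T, hT⟩ := Infinite.exists_subset_card_eq L 3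
  refine ⟨T ∪ hE.toFinset.biUnion Fx, ?_, ?_⟩
  · rw [← hT]
    exact Finset.card_le_card Finset.subset_union_left
  · intro y hy
    have h1 : Fx y ≤ T ∪ hE.toFinset.biUnion Fx := by
      refine le_trans ?_ Finset.subset_union_right
      exact Finset.subset_biUnion_of_mem Fx (hE.mem_toFinset.2 hy)
    exact ⟨mI h1 (x y), by rw [mJ_mI, hx]⟩

/-- `φ` preserves the circular order on the finite set `F` -/
def CycOn (φ : L → L) (F : Finset L) : Prop :=
  ∀ x ∈ F, ∀ y ∈ F, ∀ z ∈ F, Cyc x y z → Cyc (φ x) (φ y) (φ z)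

theorem CycOn.inj {φ : L → L} {F : Finset L} (h : CycOn φ F) (hF : 3 ≤ F.card) {x y : L}
    (hx : x ∈ F) (hy : y ∈ F) (hxy : φ x = φ y) : x = y := by
  classical
  by_contra hne
  obtain ⟨z, hz, hz'⟩ := Finset.exists_mem_notMem_of_card_lt_card
    (s := {x, y}) (t := F) (lt_of_le_of_lt Finset.card_le_two (by omega))
  rw [Finset.mem_insert, Finset.mem_singleton, not_or] at hz'
  rcases cyc_total (x := x) (y := y) (z := z) hne (Ne.symm hz'.2) (Ne.symm hz'.1) with h1 | h1
  · exact (h x hx y hy z hz h1).ne.1 hxy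
  · exact (h z hz y hy x hx h1).ne.2.1 hxy.symm

theorem CycOn.iff {φ : L → L} {F : Finset L} (h : CycOn φ F) {x y z : L}
    (hx : x ∈ F) (hy : y ∈ F) (hz : z ∈ F) : Cyc x y z ↔ Cyc (φ x) (φ y) (φ z) := by
  refine ⟨h x hx y hy z hz, fun h1 => ?_⟩
  have h2 := h1.ne
  rcases cyc_total (x := x) (y := y) (z := z) (fun h => h2.1 (by rw [h])) (fun h => h2.2.1 (by rw [h]))
    (fun h => h2.2.2 (by rw [h])) with h3 | h3
  · exact h3
  · exact absurd (h z hz y hy x hx h3) h1.asymm

/-- a map preserving the circular order on `F` is induced on the braids on `F` by conjugation -/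
theorem exists_conj [Infinite L] {φ : L → L} {F : Finset L} (h : CycOn φ F) (hF : 3 ≤ F.card) :
    ∃ p : Br L, ∀ x ∈ F, ∀ y ∈ F, p * a x y * p⁻¹ = a (φ x) (φ y) := by
  obtain ⟨p, hp⟩ := E_of_cyc (fun x : F => (x : L)) (fun x : F => φ x) Subtype.val_injective
    (fun x y hxy => Subtype.ext (h.inj hF x.2 y.2 hxy)) (fun x y z => h.iff x.2 y.2 z.2)
  exact ⟨p, fun x hx y hy => hp ⟨x, hx⟩ ⟨y, hy⟩⟩

/-- the elements which act on the finite subsets of the normal subgroup `N` like elements of `N` -/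
def LI {G : Type} [Group G] (N : Subgroup G) [N.Normal] : Subgroup G where
  carrier := {g | ∀ E : Set G, E.Finite → E ⊆ N → ∃ p ∈ N, ∀ x ∈ E, p * x * p⁻¹ = g * x * g⁻¹}
  one_mem' := fun _ _ _ => ⟨1, N.one_mem, fun x _ => rfl⟩
  mul_mem' := by
    intro g h hg hh E hE hEN
    obtain ⟨p, hp, hp'⟩ := hh E hE hEN
    obtain ⟨q, hq, hq'⟩ := hg ((fun x => p * x * p⁻¹) '' E) (hE.image _) (by
      rintro _ ⟨x, hx, rfl⟩
      exact N.mul_mem (N.mul_mem hp (hEN hx)) (N.inv_mem hp))
    refine ⟨q * p, N.mul_mem hq hp, fun x hx => ?_⟩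
    have h1 := hq' _ ⟨x, hx, rfl⟩
    simp only at h1
    have h2 := hp' x hx
    calc q * p * x * (q * p)⁻¹ = q * (p * x * p⁻¹) * q⁻¹ := by group
      _ = g * (p * x * p⁻¹) * g⁻¹ := h1
      _ = g * (h * x * h⁻¹) * g⁻¹ := by rw [h2]
      _ = g * h * x * (g * h)⁻¹ := by group
  inv_mem' := by
    intro g hg E hE hEN
    obtain ⟨p, hp, hp'⟩ := hg ((fun x => g⁻¹ * x * g) '' E) (hE.image _) (by
      rintro _ ⟨x, hx, rfl⟩
      have := Subgroup.Normal.conj_mem (inferInstance : N.Normal) x (hEN hx) g⁻¹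
      rwa [inv_inv] at this)
    refine ⟨p⁻¹, N.inv_mem hp, fun x hx => ?_⟩
    have h1 := hp' _ ⟨x, hx, rfl⟩
    simp only at h1
    have h2 : p * (g⁻¹ * x * g) * p⁻¹ = x := by
      rw [h1]; group
    calc p⁻¹ * x * p⁻¹⁻¹ = p⁻¹ * (p * (g⁻¹ * x * g) * p⁻¹) * p⁻¹⁻¹ := by rw [h2]
      _ = g⁻¹ * x * g⁻¹⁻¹ := by group

theorem le_LI {G : Type} [Group G] (N : Subgroup G) [N.Normal] : N ≤ LI N :=
  fun g hg _ _ _ => ⟨g, hg, fun _ _ => rfl⟩

variable {C : ∀ (G : Type) [Group G], Prop}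

/-- extensions in which the group acts on the kernel locally like the kernel -/
theorem C_of_LI (hC : ClosedE C) {G : Type} [Group G] (N : Subgroup G) [N.Normal] (hN : C N)
    (hQ : C (G ⧸ N)) (h : LI N = ⊤) : C G := by
  refine Q30.FJ.inn C hC G N hN hQ ?_
  intro g E hE
  have hg : g ∈ LI N := by rw [h]; exact Subgroup.mem_top g
  obtain ⟨p, hp, hp'⟩ := hg (Subtype.val '' E) (hE.image _) (by
    rintro _ ⟨x, _, rfl⟩
    exact x.2)
  refine ⟨MulAut.conj ⟨p, hp⟩, 1, ⟨p, hp⟩, one_pos, pow_one _, fun x hx => ?_⟩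
  exact hp' _ ⟨x, hx, rfl⟩

/-- extensions in which a subgroup of finite index acts on the kernel locally like the kernel -/
theorem C_of_LI_fi (hC : ClosedE C) {G : Type} [Group G] (N : Subgroup G) [N.Normal] (hN : C N)
    (hQ : C (G ⧸ N)) (h : (LI N).FiniteIndex) : C G := by
  refine hC.base.finiteIndex G (LI N) h ?_
  have hle := le_LI N
  have : (N.subgroupOf (LI N)).Normal := inferInstance
  refine C_of_LI hC (N.subgroupOf (LI N)) ?_ ?_ ?_
  · exact hC.base.of_injective _ _ (Subgroup.subgroupOfEquivOfLe hle).toMonoidHom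
      (Subgroup.subgroupOfEquivOfLe hle).injective hN
  · refine hC.base.of_injective _ _ (QuotientGroup.map (N.subgroupOf (LI N)) N (LI N).subtype
      le_rfl) ?_ hQ
    rw [injective_iff_map_eq_one]
    intro x hx
    obtain ⟨g, rfl⟩ := QuotientGroup.mk_surjective x
    have hx' : QuotientGroup.mk (s := N) (g : G) = 1 := hx
    rw [QuotientGroup.eq_one_iff] at hx'
    exact (QuotientGroup.eq_one_iff _).2 hx'
  · rw [eq_top_iff]
    rintro ⟨g, hg⟩ _ E hE hEN
    obtain ⟨p, hp, hp'⟩ := hg (Subtype.val '' E) (hE.image _) (by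
      rintro _ ⟨x, hx, rfl⟩
      exact hEN hx)
    refine ⟨⟨p, hle hp⟩, hp, fun x hx => ?_⟩
    exact Subtype.ext (hp' _ ⟨x, hx, rfl⟩)

/-- **extensions of braid groups on infinite sets** -/
theorem main_ext (hC : ClosedE C) (hB : ∀ n : ℕ, C (Br (Fin n))) [Infinite L]
    (G : Type) [Group G] (N : Subgroup G) [N.Normal] (e : Br L ≃* N) (hQ : C (G ⧸ N))
    (S : Set G) (hS : (Subgroup.closure S ⊔ N).FiniteIndex)
    (h : ∀ g ∈ S, ∀ F : Finset L, ∃ (n : N) (φ : L → L), CycOn φ F ∧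
      ∀ x ∈ F, ∀ y ∈ F, (n * g : G) * (e (a x y) : G) * (n * g : G)⁻¹ = (e (a (φ x) (φ y)) : G)) :
    C G := by
  have hN : C N := hC.base.of_injective N (Br L) e.symm.toMonoidHom e.symm.injective
    (C_Br hC.base hB L)
  refine C_of_LI_fi hC N hN hQ (Subgroup.finiteIndex_of_le (H := Subgroup.closure S ⊔ N) ?_)
  refine sup_le ?_ (le_LI N)
  rw [Subgroup.closure_le]
  intro g hg E hE hEN
  obtain ⟨F, hF3, hF⟩ := exists_F ((fun b : Br L => ((e b : N) : G)) ⁻¹' E) (hE.preimage
    (by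
      intro b _ b' _ hb
      exact e.injective (Subtype.ext hb)))
  obtain ⟨n, φ, hφ, hn⟩ := h g hg F
  obtain ⟨p, hp⟩ := exists_conj hφ hF3
  refine ⟨(n : G)⁻¹ * (e p : G), N.mul_mem (N.inv_mem n.2) (e p).2, fun x hx => ?_⟩
  obtain ⟨b, hb⟩ : ∃ b : Br L, ((e b : N) : G) = x := ⟨e.symm ⟨x, hEN hx⟩, by
    rw [e.apply_symm_apply]⟩
  obtain ⟨b', hb'⟩ := hF b (by
    show ((e b : N) : G) ∈ E
    rw [hb]
    exact hx)
  have key : ((MulAut.conj (e p : G)).toMonoidHom.comp (N.subtype.comp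
      (e.toMonoidHom.comp (mJ F)))) = ((MulAut.conj (n * g : G)).toMonoidHom.comp (N.subtype.comp
      (e.toMonoidHom.comp (mJ F)))) := by
    apply hom_ext
    intro x y
    have h1 : mJ F (a x y) = a (x : L) (y : L) := mJ_a F x y
    simp only [MonoidHom.comp_apply, h1]
    have h2 := hn x x.2 y y.2
    have h3 : ((e (p * a (x : L) (y : L) * p⁻¹) : N) : G) = (e (a (φ x) (φ y)) : G) := by
      rw [hp x x.2 y y.2]
    rw [map_mul, map_mul, map_inv] at h3
    exact h3.trans h2.symm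
  have key1 := DFunLike.congr_fun key b'
  simp only [MonoidHom.comp_apply, hb'] at key1
  have key2 : (e p : G) * x * (e p : G)⁻¹ = (n * g : G) * x * (n * g : G)⁻¹ := by
    rw [← hb]
    exact key1
  calc (n : G)⁻¹ * (e p : G) * x * ((n : G)⁻¹ * (e p : G))⁻¹
      = (n : G)⁻¹ * ((e p : G) * x * (e p : G)⁻¹) * (n : G) := by group
    _ = (n : G)⁻¹ * ((n * g : G) * x * (n * g : G)⁻¹) * (n : G) := by rw [key2]
    _ = g * x * g⁻¹ := by group

/-- the action on the braid group of a group which preserves the circular order -/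
def act {Q : Type} [Group Q] [MulAction Q L]
    (hq : ∀ (q : Q) (x y z : L), Cyc x y z → Cyc (q • x) (q • y) (q • z)) :
    Q →* MulAut (Br L) where
  toFun q := MonoidHom.toMulEquiv (map (fun x => q • x) (hq q)) (map (fun x => q⁻¹ • x) (hq q⁻¹))
    (hom_ext (fun x y => by
      rw [MonoidHom.comp_apply, map_a, map_a, inv_smul_smul, inv_smul_smul]; rfl))
    (hom_ext (fun x y => by
      rw [MonoidHom.comp_apply, map_a, map_a, smul_inv_smul, smul_inv_smul]; rfl))
  map_one' := by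
    apply MulEquiv.toMonoidHom_injective
    apply hom_ext
    intro x y
    show map (fun x => (1 : Q) • x) (hq 1) (a x y) = a x y
    rw [map_a, one_smul, one_smul]
  map_mul' q r := by
    apply MulEquiv.toMonoidHom_injective
    apply hom_ext
    intro x y
    show map (fun x => (q * r) • x) (hq (q * r)) (a x y) =
      map (fun x => q • x) (hq q) (map (fun x => r • x) (hq r) (a x y))
    rw [map_a, map_a, map_a, mul_smul, mul_smul]

theorem act_a {Q : Type} [Group Q] [MulAction Q L]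
    (hq : ∀ (q : Q) (x y z : L), Cyc x y z → Cyc (q • x) (q • y) (q • z)) (q : Q) (x y : L) :
    act hq q (a x y) = a (q • x) (q • y) :=
  map_a (fun x => q • x) (hq q) x y

theorem main_sd (hC : ClosedE C) (hB : ∀ n : ℕ, C (Br (Fin n))) [Infinite L]
    (Q : Type) [Group Q] [MulAction Q L] (hQ : C Q)
    (hq : ∀ (q : Q) (x y z : L), Cyc x y z → Cyc (q • x) (q • y) (q • z)) :
    C (Br L ⋊[act hq] Q) := by
  let π : Br L ⋊[act hq] Q →* Q := SemidirectProduct.rightHom
  have hker : (SemidirectProduct.inl : Br L →* Br L ⋊[act hq] Q).range = π.ker :=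
    SemidirectProduct.range_inl_eq_ker_rightHom
  let e : Br L ≃* π.ker :=
    (MonoidHom.ofInjective (f := (SemidirectProduct.inl : Br L →* Br L ⋊[act hq] Q))
      SemidirectProduct.inl_injective).trans (MulEquiv.subgroupCongr hker)
  have he : ∀ b, ((e b : π.ker) : Br L ⋊[act hq] Q) = SemidirectProduct.inl b := fun b => rfl
  refine main_ext hC hB (Br L ⋊[act hq] Q) π.ker e ?_ (Set.range SemidirectProduct.inr) ?_ ?_
  · refine hC.base.of_injective _ Q (QuotientGroup.quotientKerEquivOfSurjective π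
      SemidirectProduct.rightHom_surjective).toMonoidHom ?_ hQ
    exact (QuotientGroup.quotientKerEquivOfSurjective π
      SemidirectProduct.rightHom_surjective).injective
  · suffices hS : Subgroup.closure (Set.range (SemidirectProduct.inr : Q →* Br L ⋊[act hq] Q)) ⊔
        π.ker = ⊤ by
      rw [hS]
      infer_instance
    rw [eq_top_iff]
    intro g _
    have h1 : g = SemidirectProduct.inl g.left * SemidirectProduct.inr g.right :=
      (SemidirectProduct.inl_left_mul_inr_right g).symm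
    rw [h1]
    refine Subgroup.mul_mem _ (Subgroup.mem_sup_right ?_) (Subgroup.mem_sup_left ?_)
    · rw [← he]
      exact (e g.left).2
    · exact Subgroup.subset_closure ⟨_, rfl⟩
  · rintro _ ⟨q, rfl⟩ F
    refine ⟨1, fun x => q • x, fun x _ y _ z _ h => hq q x y z h, fun x _ y _ => ?_⟩
    rw [he, he, Subgroup.coe_one, one_mul, ← map_inv, ← act_a hq]
    exact (SemidirectProduct.inl_aut q (a x y)).symm

end Q181.FJB
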